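import Pool.Agent.Work.MP_fe875b_lc.R4.Fs
import Pool.Agent.Work.MP_fe875b_lc.R4.Fc.C00
import Pool.Agent.Work.MP_fe875b_lc.R4.Fc.C01
import Pool.Agent.Work.MP_fe875b_lc.R4.Fc.C02
import Pool.Agent.Work.MP_fe875b_lc.R4.Fc.C03
import Pool.Agent.Work.MP_fe875b_lc.R4.Fc.C04
import Pool.Agent.Work.MP_fe875b_lc.R4.Fc.C05
import Pool.Agent.Work.MP_fe875b_lc.R4.Fc.C06
import Pool.Agent.Work.MP_fe875b_lc.R4.Fc.C07
import Pool.Agent.Work.MP_fe875b_lc.R4.Fc.C08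
import Pool.Agent.Work.MP_fe875b_lc.R4.Fc.C09
import Pool.Agent.Work.MP_fe875b_lc.R4.Fc.C10
import Pool.Agent.Work.MP_fe875b_lc.R4.Fc.C11
import Pool.Agent.Work.MP_fe875b_lc.R4.Fc.C12
import Pool.Agent.Work.MP_fe875b_lc.R4.Fc.C13
import Pool.Agent.Work.MP_fe875b_lc.R4.Fc.C14
import Pool.Agent.Work.MP_fe875b_lc.R4.Fc.C15
import Pool.Agent.Work.MP_fe875b_lc.R4.Fc.C16
import Pool.Agent.Work.MP_fe875b_lc.R4.Fc.C17
import Pool.Agent.Work.MP_fe875b_lc.R4.Fc.C18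
import Pool.Agent.Work.MP_fe875b_lc.R4.Fc.C19
import Pool.Agent.Work.MP_fe875b_lc.R4.Fc.C20

/-!
MP_fe875b_lc, R4/Fc/All: all jobs are settled.
-/

set_option autoImplicit false

namespace Pool.Agent.KServer.R4

theorem all_0 : ∀ cs ∈ (allcp t0.v).drop 0, ∃ r : Tf, fj t0 0 cs r = true :=
  fjs_step 0 108 108 cert_0_0 rfl (fjs_nil (by decide +kernel))

theorem all_1 : ∀ cs ∈ (allcp t1.v).drop 0, ∃ r : Tf, fj t1 0 cs r = true :=
  fjs_step 0 108 108 cert_1_0 rfl (fjs_nil (by decide +kernel))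

theorem all_2 : ∀ cs ∈ (allcp t2.v).drop 0, ∃ r : Tf, fj t2 0 cs r = true :=
  fjs_step 0 131 131 cert_2_0 rfl
    (fjs_step 131 31 162 cert_2_131 rfl (fjs_nil (by decide +kernel)))

theorem all_3 : ∀ cs ∈ (allcp t3.v).drop 0, ∃ r : Tf, fj t3 0 cs r = true :=
  fjs_step 0 134 134 cert_3_0 rfl
    (fjs_step 134 28 162 cert_3_134 rfl (fjs_nil (by decide +kernel)))

theorem all_4 : ∀ cs ∈ (allcp t4.v).drop 0, ∃ r : Tf, fj t4 0 cs r = true :=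
  fjs_step 0 162 162 cert_4_0 rfl (fjs_nil (by decide +kernel))

theorem all_5 : ∀ cs ∈ (allcp t5.v).drop 0, ∃ r : Tf, fj t5 0 cs r = true :=
  fjs_step 0 120 120 cert_5_0 rfl
    (fjs_step 120 42 162 cert_5_120 rfl (fjs_nil (by decide +kernel)))

theorem all_6 : ∀ cs ∈ (allcp t6.v).drop 0, ∃ r : Tf, fj t6 1 cs r = true :=
  fjs_step 0 70 70 cert_6_0 rfl
    (fjs_step 70 68 138 cert_6_70 rfl
    (fjs_step 138 59 197 cert_6_138 rfl
    (fjs_step 197 62 259 cert_6_197 rfl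
    (fjs_step 259 68 327 cert_6_259 rfl
    (fjs_step 327 59 386 cert_6_327 rfl
    (fjs_step 386 55 441 cert_6_386 rfl
    (fjs_step 441 45 486 cert_6_441 rfl (fjs_nil (by decide +kernel)))))))))

theorem all_7 : ∀ cs ∈ (allcp t7.v).drop 0, ∃ r : Tf, fj t7 0 cs r = true :=
  fjs_step 0 85 85 cert_7_0 rfl
    (fjs_step 85 74 159 cert_7_85 rfl
    (fjs_step 159 69 228 cert_7_159 rfl
    (fjs_step 228 15 243 cert_7_228 rfl (fjs_nil (by decide +kernel)))))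

/-- All jobs are settled. -/
theorem hall : ∀ t < 8, ∀ cs ∈ allcp (TT.getD t (tm0, [])).1.v, ∃ r : Tf, fj (TT.getD t (tm0, [])).1 (bj t) cs r = true
  | 0, _ => all_0
  | 1, _ => all_1
  | 2, _ => all_2
  | 3, _ => all_3
  | 4, _ => all_4
  | 5, _ => all_5
  | 6, _ => all_6
  | 7, _ => all_7

variable {V : Type} {D : V → V → ℝ} {anti : V → V} {Δ : ℝ} {v : V → V → ℝ}

/-- **One request**, without hypotheses on certificates. -/
theorem one_request (hs : Sp D anti Δ v) (z a : V) {φ φ1 : ℝ}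
    (hφ : ∀ j < 8, ∀ y : ℕ → V, y 0 = z → φ ≤ tval D anti Δ v y (TT.getD j (tm0, [])))
    (hφ1 : ∀ j < 8, ∀ y : ℕ → V, y 0 = a → φ1 ≤ tval D anti Δ (vn D v z a) y (TT.getD j (tm0, [])))
    (hex : ∃ j < 8, ∃ y : ℕ → V, y 0 = a ∧ φ1 = tval D anti Δ (vn D v z a) y (TT.getD j (tm0, []))) :
    φ + min (2 * D a z) (v a (anti a) + Δ - v (anti a) (anti a)) ≤ φ1 :=
  step_TT hall hs z a hφ hφ1 hex

end Pool.Agent.KServer.R4
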