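import Pool.Agent.Work.MP_fe875b_lc.R4.Fc.All
import Pool.Agent.Work.MP_fe875b_lc.R4.Stp

/-!
MP_fe875b_lc, R4/Fc/Four: three servers have competitive ratio 4 in every metric space.
-/

set_option autoImplicit false

namespace Pool.Agent.KServer.R4

theorem concl : Concl := fun _ _ _ _ _ hs z a _ _ h1 h2 h3 => one_request hs z a h1 h2 h3

/-- Three servers: ratio 4 in every metric space. -/
theorem four (M : Type) [MetricSpace M] (c₀ : Fin 3 → M) : ∃ b : ℝ, Comp (fun x y => dist x y) c₀ 4 b :=
  four_of_concl concl M c₀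

end Pool.Agent.KServer.R4
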